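import Pool.Agent.H40.Minc2

set_option autoImplicit false

namespace Pool.Agent.Results.MP_79a54e_lc.NotMinimal

open Pool.Agent.H40.Gen

theorem result : ∃ M : Mod, PAm M ∧ Ind M 0 ∧ Bnd M 1 ∧ Bnd M 2 ∧ ∃ I X : Set M.N, IsCut M I ∧
    Dfn M 2 true I ∧ RedK M ∅ X ∧ ¬ RedK M X ∅ ∧ RedK M X I ∧ ¬ RedK M I X :=
  Pool.Agent.H40.Minc.main

end Pool.Agent.Results.MP_79a54e_lc.NotMinimal
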